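import Pool.Agent.Helper53.KC.All

/-!
# Almost every matroid has no nontrivial automorphism (labelled and unlabelled)

Definitions: `Pool/Agent/Helper53/KC/Defs.lean` (section `The statement`) and `Asym` in
`Pool/Agent/Helper53/KC/Goals2.lean`.
-/

namespace Pool.Agent.Results.MP_8c9d5b_co.Asymmetric

open Filter Topology Pool.Agent.Helper53.KC

/-- For all large `n`, all but a proportion of at most `2^(-2^n/n^5)` of the matroids on `Fin n`, and
all but at most this proportion of the isomorphism classes of the `n`-element matroids, have only the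
trivial automorphism. -/
theorem result :
    (∃ n₀ : ℕ, ∀ n ≥ n₀,
      (1 - (2 : ℝ) ^ (-((2 : ℝ) ^ n / (n : ℝ) ^ 5))) * numLab n (fun _ => True) ≤ numLab n Asym ∧
      (1 - (2 : ℝ) ^ (-((2 : ℝ) ^ n / (n : ℝ) ^ 5))) * numUnl n (fun _ => True) ≤
        numUnl n Asym) ∧
    Tendsto (fun n => (numLab n Asym : ℝ) / numLab n (fun _ => True)) atTop (𝓝 1) ∧
    Tendsto (fun n => (numUnl n Asym : ℝ) / numUnl n (fun _ => True)) atTop (𝓝 1) :=
  asymA

end Pool.Agent.Results.MP_8c9d5b_co.Asymmetric
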