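import Pool.Agent.Helper53.KC.All2

/-!
# The connectivity of almost every matroid is at least `κ log n` (labelled and unlabelled)

Definitions: `Pool/Agent/Helper53/KC/Defs.lean` (section `The statement`).
-/

namespace Pool.Agent.Results.MP_8c9d5b_co.LogConnectivity

open Filter Topology Pool.Agent.Helper53.KC

/-- There is `κ > 0` such that for all large `n` and all `k ≤ κ log₂ n`, all but a proportion of at most
`2^(-2^n/n^5)` of the matroids on `Fin n`, and all but at most this proportion of the isomorphism
classes of the `n`-element matroids, are `k`-connected. In particular, for every fixed `k`, both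
proportions of the question tend to `1`. -/
theorem result : ∃ κ : ℝ, 0 < κ ∧
    (∃ n₀ : ℕ, ∀ n ≥ n₀, ∀ k : ℕ, (k : ℝ) ≤ κ * Real.logb 2 n →
      (1 - (2 : ℝ) ^ (-((2 : ℝ) ^ n / (n : ℝ) ^ 5))) * numLab n (fun _ => True) ≤
        numLab n (fun M => KConn k M) ∧
      (1 - (2 : ℝ) ^ (-((2 : ℝ) ^ n / (n : ℝ) ^ 5))) * numUnl n (fun _ => True) ≤
        numUnl n (fun M => KConn k M)) ∧
    ∀ k : ℕ,
      Tendsto (fun n => (numLab n (fun M => KConn k M) : ℝ) / numLab n (fun _ => True)) atTop (𝓝 1) ∧
      Tendsto (fun n => (numUnl n (fun M => KConn k M) : ℝ) / numUnl n (fun _ => True)) atTop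
        (𝓝 1) :=
  logConnA

end Pool.Agent.Results.MP_8c9d5b_co.LogConnectivity
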